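import Pool.Agent.Q267.E8.Main2
import Pool.Agent.Q267.E8.K1
import Pool.Agent.Q267.E8.EK
import Pool.Agent.Q64.E8.C2
import Pool.Agent.Q121.E8.RP

set_option autoImplicit false

/-!
# A supercongruence for Pell-companion-weighted sums of squared central binomial coefficients

For every prime `p ≡ 1, 3` modulo `8`, written as `p = x² + 2y²` with `x ≡ 1` or `3` modulo `8`,
`∑_{k<p} Q_k C(2k,k)² / (-8)^k ≡ (-1)^((x-1)/2) (4x - p/x)` modulo `p²` (Q1).
-/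

namespace Pool.Agent.Results.MP_a989c0_nt.QOne

open Finset

/-- the companion Pell sequence `Q_0 = Q_1 = 2`, `Q_{n+2} = 2 Q_{n+1} + Q_n` -/
def Q : ℕ → ℤ
  | 0 => 2
  | 1 => 2
  | n + 2 => 2 * Q (n + 1) + Q n

/-- the sum `S_0(p)` of the problem -/
def S0 (p : ℕ) : ℚ := ∑ k ∈ range p, (Q k : ℚ) / (-8) ^ k * ((2 * k).choose k : ℚ) ^ 2

/-- `u ≡ v` modulo `p^m`, i.e. `u - v` is `p^m` times a rational number whose denominator is prime to `p` -/
def Cong (p m : ℕ) (u v : ℚ) : Prop := ∃ (n : ℤ) (d : ℕ), ¬ p ∣ d ∧ u - v = (p : ℚ) ^ m * (n / d)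

theorem Q_eq (n : ℕ) : Q n = Pool.Agent.Q267.E8.Qn n ∧ Q (n + 1) = Pool.Agent.Q267.E8.Qn (n + 1) := by
  induction n with
  | zero => exact ⟨rfl, rfl⟩
  | succ n ih =>
    refine ⟨ih.2, ?_⟩
    rw [Q, Pool.Agent.Q267.E8.Qn, ih.1, ih.2]

theorem S0_eq (p : ℕ) : S0 p = Pool.Agent.Q267.E8.S0 p := by
  unfold S0 Pool.Agent.Q267.E8.S0
  refine sum_congr rfl fun k _ => ?_
  rw [(Q_eq k).1]

/-- the statement for `x ≡ 1` modulo `4` -/
theorem aux (p : ℕ) (hp : p.Prime) (x y : ℤ) (hxy : (p : ℤ) = x ^ 2 + 2 * y ^ 2) (hx : x % 4 = 1) :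
    Cong p 2 (S0 p) (4 * (x : ℚ) - (p : ℚ) / (x : ℚ)) := by
  haveI : Fact p.Prime := ⟨hp⟩
  rcases Nat.lt_or_ge 3 p with h3 | h3
  · rw [S0_eq]
    exact Pool.Agent.Q267.E8.main_q1 Pool.Agent.Q267.E8.k1 Pool.Agent.Q267.E8.ev Pool.Agent.Q267.E8.ek
      (Pool.Agent.Q64.E8.c2 Pool.Agent.Q164.E8.rt) p h3 x y hxy (by omega)
  · have hx2 : x ^ 2 ≤ 3 := by nlinarith [sq_nonneg y, (by exact_mod_cast h3 : (p : ℤ) ≤ 3)]
    have hx1 : x = 1 := by
      have : x ≤ 1 := by nlinarith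
      have : -2 < x := by nlinarith
      omega
    subst hx1
    have hp3 : p = 3 := by
      have h2 := hp.two_le
      have : p ≠ 2 := by
        rintro rfl
        norm_num at hxy
        omega
      omega
    subst hp3
    refine ⟨3, 8, by norm_num, ?_⟩
    rw [S0, sum_range_succ, sum_range_succ, sum_range_succ, sum_range_zero]
    have h0 : Q 0 = 2 := rfl
    have h1 : Q 1 = 2 := rfl
    have h2 : Q 2 = 6 := rfl
    have c0 : (2 * 0).choose 0 = 1 := rfl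
    have c1 : (2 * 1).choose 1 = 2 := rfl
    have c2 : (2 * 2).choose 2 = 6 := rfl
    rw [h0, h1, h2, c0, c1, c2]
    norm_num

/-- **The supercongruence of Q1 holds for every prime `p ≡ 1, 3` modulo `8`.** -/
theorem result (p : ℕ) (hp : p.Prime) (h8 : p % 8 = 1 ∨ p % 8 = 3) :
    (∃ x y : ℤ, (p : ℤ) = x ^ 2 + 2 * y ^ 2 ∧ (x % 8 = 1 ∨ x % 8 = 3)) ∧
    ∀ x y : ℤ, (p : ℤ) = x ^ 2 + 2 * y ^ 2 → (x % 8 = 1 ∨ x % 8 = 3) →
      Cong p 2 (S0 p) ((-1 : ℚ) ^ ((x - 1) / 2) * (4 * (x : ℚ) - (p : ℚ) / (x : ℚ))) := by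
  haveI : Fact p.Prime := ⟨hp⟩
  refine ⟨?_, fun x y hxy hx => ?_⟩
  · obtain ⟨x, y, hxy, hx⟩ := Pool.Agent.Q121.E8.rp p h8
    rcases (show x % 8 = 1 ∨ x % 8 = 5 by omega) with h | h
    · exact ⟨x, y, hxy, Or.inl h⟩
    · exact ⟨-x, y, by rw [hxy]; ring, Or.inr (by omega)⟩
  · rcases hx with h | h
    · have hev : Even ((x - 1) / 2) := by
        rw [Int.even_iff]
        omega
      rw [hev.neg_one_zpow, one_mul]
      exact aux p hp x y hxy (by omega)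
    · have hodd : Odd ((x - 1) / 2) := by
        rw [Int.odd_iff]
        omega
      rw [hodd.neg_one_zpow]
      have := aux p hp (-x) y (by rw [hxy]; ring) (by omega)
      have e : (-1 : ℚ) * (4 * (x : ℚ) - (p : ℚ) / (x : ℚ)) =
          4 * ((-x : ℤ) : ℚ) - (p : ℚ) / ((-x : ℤ) : ℚ) := by
        push_cast
        rw [div_neg]
        ring
      rw [e]
      exact this

end Pool.Agent.Results.MP_a989c0_nt.QOne
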